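import Pool.Agent.H68.TG.Targets

/-!
Row VAL: the double pass acts on the value as the `3x+1` map.
-/

set_option autoImplicit false

open List Pool.Agent.H68.TG

namespace Pool.Agent.H68.TG

theorem pf_VAL : T_VAL := by
  intro s x y h
  refine ⟨xor (xor s x.bodd) y.bodd, t3 (xor s x.bodd) (hf s x),
    hf (xor s x.bodd) (t3 (xor s x.bodd) y), ?_, ?_⟩
  · simp [nx, s2, s1, pa, dbl]
  · have hx := Nat.bodd_add_div2 x
    have hy := Nat.bodd_add_div2 y
    rw [Nat.div2_val] at hx hy
    have hxm : x % 2 = x.bodd.toNat := Nat.mod_two_of_bodd x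
    have hym : y % 2 = y.bodd.toNat := Nat.mod_two_of_bodd y
    unfold val T hf t3
    cases s <;> cases hbx : x.bodd <;> cases hby : y.bodd <;>
      simp [hbx, hby] at h hxm hym ⊢ <;> split_ifs <;> omega

end Pool.Agent.H68.TG
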