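import Pool.Agent.H68.TG.Asm
import Pool.Agent.H10.TG.INV
import Pool.Agent.H37.TG.SHW
import Pool.Agent.H74.TG.PAS
import Pool.Agent.H74.TG.HLT
import Pool.Agent.H17.TG.RCH
import Pool.Agent.H74.TG.FSH
import Pool.Agent.H43.TG.RDW
import Pool.Agent.H43.TG.RDB
import Pool.Agent.H75.TG.NZF
import Pool.Agent.H75.TG.NDF
import Pool.Agent.H10.TG.DBL
import Pool.Agent.H68.TG.VAL
import Pool.Agent.H30.TG.COL
import Pool.Agent.H30.TG.TWO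
import Pool.Agent.H30.TG.CNT
import Pool.Agent.H99.TG.MAB
import Pool.Agent.H99.TG.MDB
import Pool.Agent.H99.TG.MXB
import Pool.Agent.H11.TG.MAJ
import Pool.Agent.H17.TG.GOO
import Pool.Agent.H10.TG.CTB
import Pool.Agent.H74.TG.CTN
import Pool.Agent.H99.TG.FNZ
import Pool.Agent.H10.TG.FND
import Pool.Agent.H75.TG.PRC

/-!
# De Mol's tag system S₂ (problem MP_c95a35_lc): the theorem
-/

set_option autoImplicit false

open List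

namespace Pool.Agent.H68.TG

theorem x_PAS : T_PAS := Pool.Agent.H74.TG.pf_PAS

theorem x_HLT : T_HLT := Pool.Agent.H74.TG.HLT.pf_HLT x_PAS

theorem x_RDB : T_RDB := Pool.Agent.H43.TG.pf_RDB

theorem x_FSH : T_FSH := Pool.Agent.H74.TG.FSH.pf_FSH

theorem x_RDW : T_RDW := Pool.Agent.H43.TG.pf_RDW

theorem x_SHW : T_SHW := Pool.Agent.H37.TG.pf_SHW

theorem x_DBL : T_DBL := Pool.Agent.H10.TG.pf_DBL x_RDB

theorem x_COL : T_COL := Pool.Agent.H30.TG.pf_COL x_HLT x_DBL pf_VAL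

theorem x_TWO : T_TWO := Pool.Agent.H30.TG.pf_TWO x_HLT x_RDB x_COL

theorem x_GOO : T_GOO :=
  Pool.Agent.H17.TG.pf_GOO x_DBL (Pool.Agent.H17.TG.pf_RCH x_PAS) Pool.Agent.H11.TG.pf_MAJ x_SHW

theorem x_CTN : T_CTN := Pool.Agent.H74.TG.CTN.pf_CTN
  (Pool.Agent.H10.TG.pf_CTB Pool.Agent.H30.TG.pf_CNT Pool.Agent.H99.TG.pf_MAB
    Pool.Agent.H99.TG.pf_MDB Pool.Agent.H99.TG.pf_MXB x_GOO)

theorem x_FNZ : T_FNZ :=
  Pool.Agent.H99.TG.pf_FNZ (Pool.Agent.H75.TG.pf_NZF x_RDW x_RDB x_FSH) x_CTN x_SHW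

theorem x_FND : T_FND :=
  Pool.Agent.H10.TG.pf_FND (Pool.Agent.H75.TG.pf_NDF x_RDW x_RDB x_FSH) x_CTN x_SHW

theorem x_ALL :
    (∀ w, Two w → (Stops w ↔ Reach w.length)) ∧
    (∀ x y, Stops (dd y ++ replicate x 0) ↔ Reach (x + y)) ∧
    (∃ r : List (Fin 3) →. ℕ, Partrec r ∧
      (∀ w m, m ∈ r w → (Stops w ↔ Reach m)) ∧
      ∀ w, (r w).Dom ↔ ∃ k, Two (step^[k] w)) ∧
    (∀ (p v : List (Fin 3)) (N : ℕ),
      (({n : ℕ | n < N ∧ ¬ Red (p ++ replicate n 0 ++ v) ((N : ℝ) ^ (19 / 20 : ℝ))}.ncard : ℕ) : ℝ)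
        ≤ 1000 * (p.length + v.length + 1) * (N : ℝ) ^ (299 / 300 : ℝ)) ∧
    (∀ (p v : List (Fin 3)) (N : ℕ),
      (({n : ℕ | n < N ∧ ¬ Red (p ++ dd n ++ v) ((N : ℝ) ^ (19 / 20 : ℝ))}.ncard : ℕ) : ℝ)
        ≤ 1000 * (p.length + v.length + 1) * (N : ℝ) ^ (299 / 300 : ℝ)) :=
  asm Pool.Agent.H10.TG.pf_INV x_TWO x_FNZ x_FND Pool.Agent.H75.TG.pf_PRC

end Pool.Agent.H68.TG
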