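import Pool.Agent.H68.TG.Targets

/-!
# De Mol's tag system S₂ (problem MP_c95a35_lc): assembly
-/

set_option autoImplicit false

open List

namespace Pool.Agent.H68.TG

lemma inv_iter (hI : T_INV) (k : ℕ) (w : List (Fin 3)) : Stops w ↔ Stops (step^[k] w) := by
  induction k generalizing w with
  | zero => exact Iff.rfl
  | succ k ih => rw [Function.iterate_succ_apply, ← ih, hI w]

theorem asm (hI : T_INV) (hT : T_TWO) (hZ : T_FNZ) (hD : T_FND) (hP : T_PRC) :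
    (∀ w, Two w → (Stops w ↔ Reach w.length)) ∧
    (∀ x y, Stops (dd y ++ replicate x 0) ↔ Reach (x + y)) ∧
    (∃ r : List (Fin 3) →. ℕ, Partrec r ∧
      (∀ w m, m ∈ r w → (Stops w ↔ Reach m)) ∧
      ∀ w, (r w).Dom ↔ ∃ k, Two (step^[k] w)) ∧
    (∀ (p v : List (Fin 3)) (N : ℕ),
      (({n : ℕ | n < N ∧ ¬ Red (p ++ replicate n 0 ++ v) ((N : ℝ) ^ (19 / 20 : ℝ))}.ncard : ℕ) : ℝ)
        ≤ 1000 * (p.length + v.length + 1) * (N : ℝ) ^ (299 / 300 : ℝ)) ∧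
    (∀ (p v : List (Fin 3)) (N : ℕ),
      (({n : ℕ | n < N ∧ ¬ Red (p ++ dd n ++ v) ((N : ℝ) ^ (19 / 20 : ℝ))}.ncard : ℕ) : ℝ)
        ≤ 1000 * (p.length + v.length + 1) * (N : ℝ) ^ (299 / 300 : ℝ)) := by
  refine ⟨hT.1, hT.2, ?_, hZ, hD⟩
  obtain ⟨r, h1, h2, h3⟩ := hP
  refine ⟨r, h1, fun w m hm => ?_, h2⟩
  obtain ⟨k, hk, rfl⟩ := h3 w m hm
  rw [inv_iter hI k w]
  exact hT.1 _ hk

end Pool.Agent.H68.TG
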