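import Mathlib

/-!
# De Mol's tag system S₂ (problem MP_c95a35_lc): definitions
-/

set_option autoImplicit false

namespace Pool.Agent.H68.TG

/-! ### The tag system and the `3x+1` map -/

/-- the productions `0 → 12`, `1 → 0`, `2 → 000` -/
def prd : Fin 3 → List (Fin 3) := ![[1, 2], [0], [0, 0, 0]]

/-- one step of the computation: remove two letters and append the production of the first -/
def step (v : List (Fin 3)) : List (Fin 3) := v.drop 2 ++ (v.take 1).flatMap prd

/-- the computation on `v` stops -/
def Stops (v : List (Fin 3)) : Prop := ∃ n, (step^[n] v).length < 2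

/-- the `3x+1` map -/
def T (n : ℕ) : ℕ := if n % 2 = 0 then n / 2 else (3 * n + 1) / 2

/-- the orbit of `n` under the `3x+1` map reaches `1` (or `0`) -/
def Reach (n : ℕ) : Prop := ∃ k, T^[k] n ≤ 1

/-- the word `12 12 ... 12` (`y` times) -/
def dd (y : ℕ) : List (Fin 3) := (List.replicate y [1, 2]).flatten

/-- the words with two runs, `0^x (12)^y` and `2 (12)^y` -/
def Two (w : List (Fin 3)) : Prop :=
  ∃ x y : ℕ, w = List.replicate x 0 ++ dd y ∨ w = 2 :: dd y

/-! ### Passes: `false` is the letter `0`, `true` is the block `12` -/

/-- the word of a list of symbols -/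
def emb : List Bool → List (Fin 3)
  | [] => []
  | false :: w => 0 :: emb w
  | true :: w => 1 :: 2 :: emb w

/-- the state after reading `w` -/
def st : Bool → List Bool → Bool
  | s, [] => s
  | s, false :: w => st (!s) w
  | s, true :: w => st s w

/-- the output of reading `w` -/
def tr : Bool → List Bool → List Bool
  | _, [] => []
  | false, false :: w => true :: tr true w
  | true, false :: w => tr false w
  | false, true :: w => false :: tr false w
  | true, true :: w => false :: false :: false :: tr true w

/-- the word of a configuration: in the state `true` the first letter is missing -/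
def tape (q : Bool × List Bool) : List (Fin 3) := (emb q.2).drop (cond q.1 1 0)

/-- one pass over the whole word -/
def pass (q : Bool × List Bool) : Bool × List Bool := (st q.1 q.2, tr q.1 q.2)

/-- the symbols written by a letter of the tag system -/
def img : Fin 3 → List Bool := ![[true], [false], [false, false, false]]

/-- the output of reading an arbitrary word -/
def rd : Bool → List (Fin 3) → List Bool
  | _, [] => []
  | false, c :: w => img c ++ rd true w
  | true, _ :: w => rd false w

/-! ### Blocks -/

/-- half of `x`, rounded up in the state `false` and down in the state `true` -/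
def hf (s : Bool) (x : ℕ) : ℕ := if s then x / 2 else (x + 1) / 2

/-- `x` in the state `false`, `3 x` in the state `true` -/
def t3 (s : Bool) (x : ℕ) : ℕ := if s then 3 * x else x

/-- the symbols of a list of blocks -/
def flat : List (Bool × ℕ) → List Bool
  | [] => []
  | b :: B => List.replicate b.2 b.1 ++ flat B

/-- the parity of the total size of the blocks of the kind `k` -/
def pa (k : Bool) : List (Bool × ℕ) → Bool
  | [] => false
  | b :: B => xor (if b.1 = k then b.2.bodd else false) (pa k B)

/-- the double pass over a list of blocks, from the states `a` and `b` -/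
def dbl : Bool → Bool → List (Bool × ℕ) → List (Bool × ℕ)
  | _, _, [] => []
  | a, b, (false, u) :: B => (false, t3 b (hf a u)) :: dbl (xor a u.bodd) b B
  | a, b, (true, u) :: B => (true, hf b (t3 a u)) :: dbl a (xor b u.bodd) B

/-- the blocks of size one of a list of symbols -/
def one (w : List Bool) : List (Bool × ℕ) := w.map fun c => (c, 1)

/-! ### The process -/

/-- the configuration `0^x B` in the state `s` -/
def cfg (q : Bool × ℕ × List (Bool × ℕ)) : Bool × List Bool :=
  (q.1, List.replicate q.2.1 false ++ flat q.2.2)

/-- the first state at the start of `B`, from the state `s` with the coin `c` -/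
def s1 (c s : Bool) : Bool := xor s c

/-- the second state at the start of `B` -/
def s2 (c s : Bool) (B : List (Bool × ℕ)) : Bool := xor (xor s c) (pa false B)

/-- the double pass of `0^x B` in the state `s` -/
def nx (q : Bool × ℕ × List (Bool × ℕ)) : Bool × ℕ × List (Bool × ℕ) :=
  (xor (s2 q.2.1.bodd q.1 q.2.2) (pa true q.2.2), t3 (s2 q.2.1.bodd q.1 q.2.2) (hf q.1 q.2.1),
    dbl (s1 q.2.1.bodd q.1) (s2 q.2.1.bodd q.1 q.2.2) q.2.2)

/-- the value of the configuration `0^x (12)^y` in the state `s` -/
def val (s : Bool) (x y : ℕ) : ℕ := x + 2 * y - cond s 1 0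

/-- states of the process driven by coins: state, majorant of `x`, blocks -/
abbrev St : Type := Bool × ℝ × List (Bool × ℕ)

/-- one step of the process with the coin `c` -/
noncomputable def nc (c : Bool) (q : St) : St :=
  (xor (s2 c q.1 q.2.2) (pa true q.2.2), (if s2 c q.1 q.2.2 then 3 else 1) * (q.2.1 + 1) / 2,
    dbl (s1 c q.1) (s2 c q.1 q.2.2) q.2.2)

/-- the sum of `f` over all sequences of `n` coins -/
noncomputable def tot (f : St → ℝ) : ℕ → St → ℝ
  | 0, q => f q
  | n + 1, q => tot f n (nc false q) + tot f n (nc true q)

/-- the process with the coins of the configuration `q` -/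
noncomputable def drive : ℕ → Bool × ℕ × List (Bool × ℕ) → ℝ → St
  | 0, q, X => (q.1, X, q.2.2)
  | n + 1, q, X =>
    drive n (nx q) ((if s2 q.2.1.bodd q.1 q.2.2 then 3 else 1) * (X + 1) / 2)

/-- the sum of the square roots of the sizes of the blocks of the kind `k` -/
noncomputable def ph (k : Bool) : List (Bool × ℕ) → ℝ
  | [] => 0
  | b :: B => (if b.1 = k then Real.sqrt b.2 else 0) + ph k B

/-- the computation reaches a word with two runs of length at most `L` -/
def Red (w : List (Fin 3)) (L : ℝ) : Prop :=
  ∃ k, Two (step^[k] w) ∧ ((step^[k] w).length : ℝ) ≤ L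

end Pool.Agent.H68.TG
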