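import Pool.Agent.H68.TG.Defs

/-!
# De Mol's tag system S₂ (problem MP_c95a35_lc): targets
-/

set_option autoImplicit false

open List

namespace Pool.Agent.H68.TG

/-! ### Passes -/

/-- (INV) stopping is invariant. -/
def T_INV : Prop := ∀ w, Stops w ↔ Stops (step w)

/-- (SHW) short words reach words with two runs. -/
def T_SHW : Prop := ∀ w : List (Fin 3), w.length < 2 → Red w 1

/-- (PAS) one pass. -/
def T_PAS : Prop := ∀ q, 2 ≤ (tape q).length → ∃ n, 1 ≤ n ∧ step^[n] (tape q) = tape (pass q) ∧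
  ∀ j < n, 2 ≤ (step^[j] (tape q)).length

/-- (HLT) stopping in terms of passes. -/
def T_HLT : Prop := ∀ q, Stops (tape q) ↔ ∃ k, (tape (pass^[k] q)).length < 2

/-- (RCH) the passes are reached. -/
def T_RCH : Prop := ∀ q k, ∃ n, step^[n] (tape q) = tape (pass^[k] q) ∨
  (step^[n] (tape q)).length < 2

/-- (FSH) reading a prefix. -/
def T_FSH : Prop := ∀ (s : Bool) (p w : List Bool), ∃ n,
  step^[n] (tape (s, p ++ w)) = tape (st s p, w ++ tr s p) ∨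
  (step^[n] (tape (s, p ++ w))).length < 2

/-- (RDW) reading an arbitrary word. -/
def T_RDW : Prop := ∀ w : List (Fin 3), ∃ n, step^[n] w = tape (w.length.bodd, rd false w) ∨
  (step^[n] w).length < 2

/-- (RDB) the outputs of products and powers. -/
def T_RDB : Prop :=
  (∀ s p w, rd s (p ++ w) = rd s p ++ rd (xor s p.length.bodd) w) ∧
  (∀ s n, rd s (replicate n 0) = replicate (hf s n) true) ∧
  (∀ s n, rd s (dd n) = replicate (t3 s n) false) ∧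
  (∀ s w, (rd s w).length ≤ 3 * w.length) ∧
  (∀ s p w, tr s (p ++ w) = tr s p ++ tr (st s p) w ∧ st s (p ++ w) = st (st s p) w) ∧
  (∀ s n, tr s (replicate n true) = replicate (t3 s n) false ∧ st s (replicate n true) = s) ∧
  (∀ s n, tr s (replicate n false) = replicate (hf s n) true ∧
    st s (replicate n false) = xor s n.bodd) ∧
  (∀ s w, (tr s w).length ≤ 3 * w.length) ∧
  (∀ w, flat (one w) = w)

/-- (NZF) the words `p 0^n v`, `n` in a class modulo `2`. -/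
def T_NZF : Prop := ∀ (p v : List (Fin 3)) (c : ℕ), c < 2 → ∃ (s : Bool) (m r : ℕ) (V : List Bool),
  Odd m ∧ m ≤ 3 ∧ r ≤ 3 ∧ V.length ≤ 27 * (p.length + v.length) ∧ ∀ n, ∃ k,
    step^[k] (p ++ replicate (2 * n + c) 0 ++ v) = tape (cfg (s, m * n + r, one V)) ∨
    (step^[k] (p ++ replicate (2 * n + c) 0 ++ v)).length < 2

/-- (NDF) the words `p (12)^n v`. -/
def T_NDF : Prop := ∀ p v : List (Fin 3), ∃ (s : Bool) (m r : ℕ) (V : List Bool),
  Odd m ∧ m ≤ 3 ∧ r ≤ 3 ∧ V.length ≤ 27 * (p.length + v.length) ∧ ∀ n, ∃ k,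
    step^[k] (p ++ dd n ++ v) = tape (cfg (s, m * n + r, one V)) ∨
    (step^[k] (p ++ dd n ++ v)).length < 2

/-- (DBL) the double pass. -/
def T_DBL : Prop := ∀ q, pass (pass (cfg q)) = cfg (nx q)

/-! ### Words with two runs -/

/-- (VAL) the double pass acts on the value as the `3x+1` map. -/
def T_VAL : Prop := ∀ (s : Bool) (x y : ℕ), cond s 1 0 ≤ x + 2 * y → ∃ (s' : Bool) (x' y' : ℕ),
  nx (s, x, [(true, y)]) = (s', x', [(true, y')]) ∧ cond s' 1 0 ≤ x' + 2 * y' ∧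
    val s' x' y' = T (val s x y)

/-- (COL) the configurations with two runs. -/
def T_COL : Prop := ∀ (s : Bool) (x y : ℕ),
  Stops (tape (s, replicate x false ++ replicate y true)) ↔ Reach (val s x y)

/-- (TWO) the words with two runs. -/
def T_TWO : Prop := (∀ w, Two w → (Stops w ↔ Reach w.length)) ∧
  ∀ x y, Stops (dd y ++ replicate x 0) ↔ Reach (x + y)

/-! ### Counting -/

/-- (CNT) all sequences of coins occur once. -/
def T_CNT : Prop := ∀ (f : St → ℝ) (n m r : ℕ) (s : Bool) (B : List (Bool × ℕ)) (X : ℝ), Odd m →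
  ∑ i ∈ Finset.range (2 ^ n), f (drive n (s, m * i + r, B) X) = tot f n (s, X, B)

/-- (MAB) the blocks of `0` die. -/
def T_MAB : Prop := ∀ (n : ℕ) (q : St),
  tot (fun z => ph false z.2.2) n q ≤ (399 / 200) ^ n * ph false q.2.2

/-- (MDB) the blocks of `12`. -/
def T_MDB : Prop := ∀ (n : ℕ) (q : St),
  tot (fun z => ph true z.2.2) n q ≤ 2 ^ n * ph true q.2.2

/-- (MXB) the long block. -/
def T_MXB : Prop := ∀ (n : ℕ) (q : St), 0 ≤ q.2.1 →
  tot (fun z => Real.sqrt z.2.1) n q ≤ 2 ^ n * ((97 / 100) ^ n * Real.sqrt q.2.1 + 33)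

/-- (MAJ) the process and its majorant. -/
def T_MAJ : Prop := ∀ (n : ℕ) (q : Bool × ℕ × List (Bool × ℕ)) (X : ℝ), (q.2.1 : ℝ) ≤ X →
  (drive n q X).1 = (nx^[n] q).1 ∧ (drive n q X).2.2 = (nx^[n] q).2.2 ∧
    ((nx^[n] q).2.1 : ℝ) ≤ (drive n q X).2.1

/-- (GOO) good numbers. -/
def T_GOO : Prop := ∀ (n : ℕ) (q : Bool × ℕ × List (Bool × ℕ)) (X a b : ℝ), (q.2.1 : ℝ) ≤ X →
  ph false (drive n q X).2.2 < 1 → ph true (drive n q X).2.2 ≤ a →
  Real.sqrt (drive n q X).2.1 ≤ b → Red (tape (cfg q)) (b ^ 2 + 2 * a ^ 2 + 1)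

/-- (CTB) the exceptions below a power of two. -/
def T_CTB : Prop := ∀ (s : Bool) (m r : ℕ) (V : List Bool) (n : ℕ), Odd m → m ≤ 3 → r ≤ 3 →
  (({i : ℕ | i < 2 ^ n ∧
    ¬ Red (tape (cfg (s, m * i + r, one V))) (4 * (2 : ℝ) ^ ((23 / 25 : ℝ) * n))}.ncard : ℕ) : ℝ) ≤
    (2 * V.length + 36) * (2 : ℝ) ^ ((299 / 300 : ℝ) * n)

/-- (CTN) the exceptions below `N`. -/
def T_CTN : Prop := ∀ (s : Bool) (m r : ℕ) (V : List Bool) (N : ℕ), Odd m → m ≤ 3 → r ≤ 3 →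
  1 ≤ N → (({i : ℕ | i < N ∧
    ¬ Red (tape (cfg (s, m * i + r, one V))) (8 * (N : ℝ) ^ (23 / 25 : ℝ))}.ncard : ℕ) : ℝ) ≤
    (4 * V.length + 72) * (N : ℝ) ^ (299 / 300 : ℝ)

/-- (FNZ) the words `p 0^n v`. -/
def T_FNZ : Prop := ∀ (p v : List (Fin 3)) (N : ℕ),
  (({n : ℕ | n < N ∧ ¬ Red (p ++ replicate n 0 ++ v) ((N : ℝ) ^ (19 / 20 : ℝ))}.ncard : ℕ) : ℝ) ≤
    1000 * (p.length + v.length + 1) * (N : ℝ) ^ (299 / 300 : ℝ)

/-- (FND) the words `p (12)^n v`. -/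
def T_FND : Prop := ∀ (p v : List (Fin 3)) (N : ℕ),
  (({n : ℕ | n < N ∧ ¬ Red (p ++ dd n ++ v) ((N : ℝ) ^ (19 / 20 : ℝ))}.ncard : ℕ) : ℝ) ≤
    1000 * (p.length + v.length + 1) * (N : ℝ) ^ (299 / 300 : ℝ)

/-! ### The reduction -/

/-- (PRC) the reduction is partial recursive. -/
def T_PRC : Prop := ∃ r : List (Fin 3) →. ℕ, Partrec r ∧
  (∀ w, (r w).Dom ↔ ∃ k, Two (step^[k] w)) ∧
  ∀ w m, m ∈ r w → ∃ k, Two (step^[k] w) ∧ m = (step^[k] w).length

end Pool.Agent.H68.TG
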